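import Pool.Agent.GRA.StmtsM
import Pool.Agent.Helper64_FR.FIX
import Pool.Agent.Helper64_FR.Basic
import Pool.Agent.Helper47_FR.Der

/-!
Row SYS of the squad GRA: the permutation operators and the pair projections on the torus
invariant vectors.
-/

open MeasureTheory Matrix Finset
open scoped ComplexConjugate

namespace Pool.Agent.GRA.H77

open Pool.Agent.Helper64_FR Pool.Agent.UTR Pool.Agent.BSE

/-- restriction of an operator to the torus invariant vectors -/
noncomputable def rs {n : ℕ} (ρ : URep n) (A : ρ.Sp →L[ℂ] ρ.Sp)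
    (hA : ∀ v : ρ.Sp, TInv ρ v → TInv ρ (A v)) : TI ρ →ₗ[ℂ] TI ρ where
  toFun x := ⟨A x, hA _ x.2⟩
  map_add' x y := Subtype.ext (by
    show A ((x : ρ.Sp) + (y : ρ.Sp)) = A x + A y
    exact map_add _ _ _)
  map_smul' c x := Subtype.ext (by
    show A (c • (x : ρ.Sp)) = c • A x
    exact map_smul _ _ _)

theorem sys (hMSH : MSHStmt) : SYSStmt := by
  intro n ρ
  obtain ⟨D, hD⟩ := Pool.Agent.Helper64_FR.H47.der n ρ
  obtain ⟨-, -, -, h4, h5, h6⟩ := hMSH n ρ D hD
  have hs : ∀ (τ : Equiv.Perm (Fin n)) (v : ρ.Sp), TInv ρ v → TInv ρ (ρ.op (pm τ) v) :=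
    fun τ v hv => (h6 v hv).2 τ
  have hP : ∀ (B : Finset (Fin n)) (v : ρ.Sp), TInv ρ v → TInv ρ (ρ.P B v) :=
    fun B v hv => (h6 v hv).1 B
  refine ⟨{ s := { toFun := fun τ => rs ρ (ρ.op (pm τ)) (hs τ)
                   map_one' := ?_
                   map_mul' := ?_ }
            P := fun i j => rs ρ (ρ.P {i, j}) (hP _)
            iso := ?_
            symm := ?_
            idem := ?_
            comm := ?_
            eqv := ?_
            fix := ?_ }, ?_, ?_⟩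
  · refine LinearMap.ext fun x => Subtype.ext ?_
    show ρ.op (pm 1) (x : ρ.Sp) = x
    rw [map_one, URep.op_one]
    rfl
  · intro σ τ
    refine LinearMap.ext fun x => Subtype.ext ?_
    show ρ.op (pm (σ * τ)) (x : ρ.Sp) = ρ.op (pm σ) (ρ.op (pm τ) x)
    rw [map_mul, URep.op_mul]
    rfl
  · intro σ x
    exact URep.norm_op_apply ρ (pm σ) (x : ρ.Sp)
  · intro i j x y
    show (inner ℂ (ρ.P {i, j} (x : ρ.Sp)) (y : ρ.Sp) : ℂ) = inner ℂ (x : ρ.Sp) (ρ.P {i, j} y)
    have h := ContinuousLinearMap.adjoint_inner_left (ρ.P {i, j}) (y : ρ.Sp) (x : ρ.Sp)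
    rw [← ContinuousLinearMap.star_eq_adjoint, FIX.P_star] at h
    exact h
  · intro i j x
    refine Subtype.ext ?_
    show ρ.P {i, j} (ρ.P {i, j} (x : ρ.Sp)) = ρ.P {i, j} x
    exact congrArg (fun A : ρ.Sp →L[ℂ] ρ.Sp => A (x : ρ.Sp)) (FIX.P_idem ρ {i, j})
  · intro i j
    refine LinearMap.ext fun x => Subtype.ext ?_
    show ρ.P {i, j} (x : ρ.Sp) = ρ.P {j, i} x
    rw [Finset.pair_comm]
  · intro σ i j x
    refine Subtype.ext ?_
    show ρ.op (pm σ) (ρ.P {i, j} (x : ρ.Sp)) = ρ.P {σ i, σ j} (ρ.op (pm σ) x)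
    rw [h4 σ {i, j} x, Finset.map_insert, Finset.map_singleton]
    rfl
  · intro i j x
    refine Subtype.ext ?_
    show ρ.op (pm (Equiv.swap i j)) (ρ.P {i, j} (x : ρ.Sp)) = ρ.P {i, j} x
    exact FIX.P_apply_inv ρ {i, j} x _ (h5 i j)
  · intro τ x
    rfl
  · intro i j x
    rfl

end Pool.Agent.GRA.H77
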